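import Pool.Agent.H811.Tan.Examples2

/-!
# The equality cases of the first inequality (Tan groups)

For a pair `f, g` generating a discrete nonelementary subgroup of `PSL(2, ℂ)`, equality
`|tr² f - 2| + |tr [f, g] - 1| = 1` with `tr [f, g] ≠ 1` holds exactly when `tr² f = 2` and
`tr [f, g]` is one of seven numbers, and each of the seven numbers occurs.
-/

namespace Pool.Agent.Results.MP_743898_gt.TanValues

open Pool.Agent.H811.Tan

theorem sqrt3_conj (s : ℂ) (hs : s ^ 2 = 3) :
    (((1 + s * Complex.I) / 2) - 1) ^ 12 = 1 ∧ (((3 + s * Complex.I) / 2) - 1) ^ 12 = 1 := by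
  have hI := Complex.I_sq
  have h1 : (((1 + s * Complex.I) / 2) - 1) ^ 2 + (((1 + s * Complex.I) / 2) - 1) + 1 = 0 := by
    linear_combination (s ^ 2 / 4) * hI - (1 / 4) * hs
  have h2 : (((3 + s * Complex.I) / 2) - 1) ^ 2 - (((3 + s * Complex.I) / 2) - 1) + 1 = 0 := by
    linear_combination (s ^ 2 / 4) * hI - (1 / 4) * hs
  generalize ((1 + s * Complex.I) / 2) - 1 = w at h1
  generalize ((3 + s * Complex.I) / 2) - 1 = v at h2
  constructor
  · linear_combination ((w - 1) * (w ^ 3 + 1) * (w ^ 6 + 1)) * h1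
  · linear_combination ((v + 1) * (v ^ 3 - 1) * (v ^ 6 + 1)) * h2

theorem norm_tanValues {z : ℂ} (hz : z ∈ tanValues) : ‖z - 1‖ = 1 := by
  apply norm_one_of_pow
  have hI := Complex.I_sq
  have h3 := sqrt3_sq
  have h3' : (-((Real.sqrt 3 : ℝ) : ℂ)) ^ 2 = 3 := by rw [neg_sq, h3]
  obtain ⟨a1, a2⟩ := sqrt3_conj _ h3
  obtain ⟨b1, b2⟩ := sqrt3_conj _ h3'
  unfold tanValues at hz
  simp only [Set.mem_insert_iff, Set.mem_singleton_iff] at hz
  rcases hz with rfl | rfl | rfl | rfl | rfl | rfl | rfl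
  · norm_num
  · rw [show (1 + Complex.I - 1) ^ 12 = (Complex.I ^ 2) ^ 6 by ring, hI]; norm_num
  · rw [show (1 - Complex.I - 1) ^ 12 = (Complex.I ^ 2) ^ 6 by ring, hI]; norm_num
  · exact a1
  · rw [show (1 - ((Real.sqrt 3 : ℝ) : ℂ) * Complex.I) / 2 - 1
      = (1 + -((Real.sqrt 3 : ℝ) : ℂ) * Complex.I) / 2 - 1 by ring]
    exact b1
  · exact a2
  · rw [show (3 - ((Real.sqrt 3 : ℝ) : ℂ) * Complex.I) / 2 - 1
      = (3 + -((Real.sqrt 3 : ℝ) : ℂ) * Complex.I) / 2 - 1 by ring]
    exact b2

/-- The equality case of the first inequality: the complete list of the pairs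
`(tr² f, tr [f, g])`, and all of them occur. -/
theorem result :
    (∀ f g : PSL2, DiscreteTopology (Subgroup.closure {f, g}) →
      Nonelementary (Subgroup.closure {f, g}) →
      ((trComm f g ≠ 1 ∧ ‖trSq f - 2‖ + ‖trComm f g - 1‖ = 1) ↔
        (trSq f = 2 ∧ trComm f g ∈ tanValues))) ∧
    (∀ z ∈ tanValues, ∃ f g : PSL2, DiscreteTopology (Subgroup.closure {f, g}) ∧
      Nonelementary (Subgroup.closure {f, g}) ∧ trSq f = 2 ∧ trComm f g = z) := by
  constructor
  · intro f g hd hne
    constructor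
    · rintro ⟨h1, h2⟩
      exact tan_necessary hd hne h1 h2
    · rintro ⟨h1, h2⟩
      have h3 := norm_tanValues h2
      refine ⟨?_, ?_⟩
      · intro h4
        rw [h4, sub_self, norm_zero] at h3
        norm_num at h3
      · rw [h1, h3, sub_self, norm_zero, zero_add]
  · intro z hz
    unfold tanValues at hz
    simp only [Set.mem_insert_iff, Set.mem_singleton_iff] at hz
    have hs : (Real.sqrt 3 : ℝ) ≠ 0 := by positivity
    rcases hz with rfl | rfl | rfl | rfl | rfl | rfl | rfl
    · exact realize_one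
    · exact realize_tan discRing_gauss ⟨1, 1, by simp⟩ (by simp)
    · exact realize_tan discRing_gauss ⟨1, -1, by simp; ring⟩ (by simp)
    · exact realize_tan discRing_eis ⟨1, 1, by unfold om; push_cast; ring⟩ (by simp)
    · exact realize_tan discRing_eis ⟨0, -1, by unfold om; push_cast; ring⟩ (by simp)
    · exact realize_tan discRing_eis ⟨2, 1, by unfold om; push_cast; ring⟩ (by simp)
    · exact realize_tan discRing_eis ⟨1, -1, by unfold om; push_cast; ring⟩ (by simp)

end Pool.Agent.Results.MP_743898_gt.TanValues
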